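import Pool.Agent.Helper97.Speed.WalkDefs
import Pool.Agent.Helper97.Speed.Hull
import Pool.Agent.Helper32.Speed.Net
import Pool.Agent.Helper86.Speed.Ports

/-! # U6: hitting probabilities and the number of visited vertices -/

namespace Pool.Agent.Helper97.Speed

open MeasureTheory Filter Topology ENNReal

namespace PMap

variable {m : PMap}

/-! ### the darts around a vertex -/

lemma card_out (h : m.Pre) (x : ℕ) : (h.net.out x).card = m.deg x := by
  rw [Net.out, deg, Set.ncard_eq_toFinset_card _ (h.fin x)]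
  rfl

lemma IsHalfPlane.rot_injOn_range (h : m.IsHalfPlane) {r : ℕ} (hr : r ∈ m.E) :
    Set.InjOn (fun i => m.rot^[i] r) (Finset.range (m.deg (m.org r)) : Set ℕ) := by
  classical
  -- if `rot^[i] r = rot^[j] r`, `i < j`, the orbit has at most `j - i` elements
  have key : ∀ i j, i < j → j < m.deg (m.org r) → m.rot^[i] r ≠ m.rot^[j] r := by
    intro i j hij hj heq
    have hmem : ∀ l, m.rot^[l] r ∈ m.Fx (m.org r) := fun l =>
      h.pre.rot_iter_maps (x := m.org r) ⟨hr, rfl⟩ l
    -- cancel
    have hc : ∀ a c : ℕ, m.rot^[a] r = m.rot^[a + c] r → r = m.rot^[c] r := by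
      intro a
      induction a with
      | zero => intro c hc; simpa using hc
      | succ a ih =>
        intro c hc
        apply ih
        rw [Function.iterate_succ_apply', show a + 1 + c = (a + c) + 1 by ring,
          Function.iterate_succ_apply'] at hc
        exact h.pre.rot_inj (hmem a).1 (hmem (a + c)).1 hc
    have hper : r = m.rot^[j - i] r := hc i (j - i) (by rwa [Nat.add_sub_cancel' hij.le])
    have hpos : 0 < j - i := by omega
    have hmod : ∀ l, ∃ l' < j - i, m.rot^[l] r = m.rot^[l'] r := by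
      intro l
      induction l using Nat.strong_induction_on with
      | _ l ih =>
        by_cases hl : l < j - i
        · exact ⟨l, hl, rfl⟩
        · obtain ⟨l', hl', h'⟩ := ih (l - (j - i)) (by omega)
          refine ⟨l', hl', ?_⟩
          rw [← h', show l = (l - (j - i)) + (j - i) by omega, Function.iterate_add_apply,
            ← hper]
          simp
    have hsub : h.pre.net.out (m.org r) ⊆ (Finset.range (j - i)).image (fun l => m.rot^[l] r) := by
      intro d hd
      have hd' : d ∈ m.E ∧ m.org d = m.org r := (h.pre.net.mem_out).1 hd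
      obtain ⟨l, hl⟩ := h.exists_rot hr hd'.1 hd'.2.symm
      obtain ⟨l', hl', h'⟩ := hmod l
      exact Finset.mem_image.2 ⟨l', Finset.mem_range.2 hl', by rw [← h', hl]⟩
    have hcard := Finset.card_le_card hsub
    have hcard2 := Finset.card_image_le (s := Finset.range (j - i)) (f := fun l => m.rot^[l] r)
    rw [Finset.card_range] at hcard2
    rw [card_out] at hcard
    omega
  intro i hi j hj hij
  rw [Finset.coe_range, Set.mem_Iio] at hi hj
  rcases lt_trichotomy i j with h1 | h1 | h1
  · exact absurd hij (key i j h1 hj)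
  · exact h1
  · exact absurd hij.symm (key j i h1 hi)

lemma IsHalfPlane.image_rot (h : m.IsHalfPlane) {r : ℕ} (hr : r ∈ m.E) :
    (Finset.range (m.deg (m.org r))).image (fun i => m.rot^[i] r) = h.pre.net.out (m.org r) := by
  classical
  apply Finset.eq_of_subset_of_card_le
  · intro d hd
    obtain ⟨i, -, rfl⟩ := Finset.mem_image.1 hd
    exact (h.pre.net.mem_out).2 (h.pre.rot_iter_maps (x := m.org r) ⟨hr, rfl⟩ i)
  · rw [card_out, Finset.card_image_of_injOn (h.rot_injOn_range hr), Finset.card_range]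

lemma IsHalfPlane.sum_rot (h : m.IsHalfPlane) {r : ℕ} (hr : r ∈ m.E) {M : Type*}
    [AddCommMonoid M] (F : ℕ → M) :
    ∑ i ∈ Finset.range (m.deg (m.org r)), F (m.rot^[i] r) =
      ∑ d ∈ h.pre.net.out (m.org r), F d := by
  classical
  rw [← h.image_rot hr, Finset.sum_image (h.rot_injOn_range hr)]

/-! ### decomposition according to the first port -/

lemma pos_zero (r : ℕ) (a : ℕ → ℕ) : m.pos r a 0 = m.org r := rfl

lemma pos_add (r : ℕ) (a : ℕ → ℕ) (n k : ℕ) :
    m.pos r a (n + k) = m.pos (m.run r a n) (sh n a) k := by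
  unfold pos; rw [run_add]

lemma pos_succ' (r : ℕ) (a : ℕ → ℕ) (n : ℕ) :
    m.pos r a (n + 1) = m.pos (m.step r (a 0)) (sh 1 a) n := by
  rw [add_comm, pos_add]; rfl

lemma measurable_run (r n : ℕ) : Measurable (fun a : ℕ → ℕ => m.run r a n) := by
  induction n with
  | zero => exact measurable_const
  | succ n ih =>
    have h1 : Measurable (fun a : ℕ → ℕ => (m.run r a n, a n)) := ih.prodMk (measurable_pi_apply n)
    exact (Measurable.of_discrete (f := fun z : ℕ × ℕ => m.step z.1 z.2)).comp h1

lemma measurable_pos (r n : ℕ) : Measurable (fun a : ℕ → ℕ => m.pos r a n) :=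
  (Measurable.of_discrete (f := m.org)).comp (measurable_run r n)

lemma ports_first (h : m.IsHalfPlane) {r : ℕ} (hr : r ∈ m.E) (B : ℕ → Set (ℕ → ℕ))
    (hB : ∀ i, MeasurableSet (B i)) :
    ports (m.dg r) {a | sh 1 a ∈ B (m.step r (a 0))} =
      (m.deg (m.org r) : ℝ≥0∞)⁻¹ *
        ∑ d ∈ h.pre.net.out (m.org r), ports (m.dg (m.rev d)) (B (m.rev d)) := by
  have hD : ∀ v, 0 < m.dg r v := h.pre.dg_pos hr
  have hms : Measurable (fun a : ℕ → ℕ => sh 1 a) :=
    measurable_pi_lambda _ fun i => measurable_pi_apply _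
  have h1 : {a : ℕ → ℕ | sh 1 a ∈ B (m.step r (a 0))} =
      ⋃ i, {a : ℕ → ℕ | a 0 = i ∧ sh 1 a ∈ B (m.step r i)} := by
    ext a
    simp
  rw [h1, measure_iUnion]
  · have h2 : ∀ i, ports (m.dg r) {a | a 0 = i ∧ sh 1 a ∈ B (m.step r i)} =
        if i < m.deg (m.org r) then (m.deg (m.org r) : ℝ≥0∞)⁻¹ *
          ports (m.dg (m.step r i)) (B (m.step r i)) else 0 := fun i =>
      ports_step (hD []) i (hB _)
    simp_rw [h2]
    rw [tsum_eq_sum (s := Finset.range (m.deg (m.org r)))]
    · rw [Finset.sum_congr rfl (fun i hi => if_pos (Finset.mem_range.1 hi)), ← Finset.mul_sum]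
      congr 1
      exact h.sum_rot hr (fun d => ports (m.dg (m.rev d)) (B (m.rev d)))
    · intro i hi
      rw [Finset.mem_range] at hi
      rw [if_neg hi]
  · intro i j hij
    rw [Function.onFun, Set.disjoint_left]
    rintro a ⟨h1, -⟩ ⟨h2, -⟩
    exact hij (h1.symm.trans h2)
  · intro i
    exact ((measurable_pi_apply 0) (measurableSet_singleton i)).inter (hms (hB _))

lemma measurableSet_avoid (r n : ℕ) (A : Finset ℕ) :
    MeasurableSet {a : ℕ → ℕ | ∀ k ≤ n, m.pos r a k ∉ A} := by
  have : {a : ℕ → ℕ | ∀ k ≤ n, m.pos r a k ∉ A} =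
      ⋂ k ∈ Set.Iic n, {a : ℕ → ℕ | m.pos r a k ∉ A} := by
    ext a; simp
  rw [this]
  refine MeasurableSet.biInter (Set.to_countable _) fun k _ => ?_
  exact (measurable_pos r k) (MeasurableSet.of_discrete (s := {x | x ∉ A}))

lemma IsHalfPlane.deg_cast_pos (h : m.IsHalfPlane) {r : ℕ} (hr : r ∈ m.E) :
    (0 : ℝ) < m.deg (m.org r) := by
  exact_mod_cast h.pre.deg_pos hr

/-- averages of complementary probabilities -/
lemma avg_ofReal (h : m.IsHalfPlane) {r : ℕ} (hr : r ∈ m.E) (f : ℕ → ℝ) (h1 : ∀ x, f x ≤ 1) :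
    (m.deg (m.org r) : ℝ≥0∞)⁻¹ *
        ∑ d ∈ h.pre.net.out (m.org r), ENNReal.ofReal (1 - f (m.org (m.rev d))) =
      ENNReal.ofReal (1 - (∑ d ∈ h.pre.net.out (m.org r), f (m.org (m.rev d))) /
        m.deg (m.org r)) := by
  have hpos := h.deg_cast_pos hr
  rw [← ENNReal.ofReal_sum_of_nonneg (fun d _ => by linarith [h1 (m.org (m.rev d))]),
    ← ENNReal.ofReal_natCast, ← ENNReal.ofReal_inv_of_pos hpos,
    ← ENNReal.ofReal_mul (inv_nonneg.2 hpos.le), Finset.sum_sub_distrib]
  congr 1
  rw [Finset.sum_const, card_out, nsmul_eq_mul, mul_one]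
  field_simp

lemma hit_le_one (h : m.IsHalfPlane) (A : Finset ℕ) (n x : ℕ) : h.pre.net.hit A n x ≤ 1 := by
  induction n generalizing x with
  | zero => simp only [Net.hit]; split_ifs <;> norm_num
  | succ n ih =>
    by_cases hx : x ∈ A
    · rw [Net.hit_of_mem _ hx]
    · rw [Net.hit_succ _ hx]
      apply div_le_one_of_le₀ _ (Nat.cast_nonneg _)
      calc ∑ d ∈ h.pre.net.out x, h.pre.net.hit A n (h.pre.net.org (h.pre.net.rev d))
          ≤ ∑ d ∈ h.pre.net.out x, (1 : ℝ) := Finset.sum_le_sum fun d _ => ih _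
        _ = _ := by simp

theorem hit_eq (h : m.IsHalfPlane) (A : Finset ℕ) {r : ℕ} (hr : r ∈ m.E) (n : ℕ) :
    ports (m.dg r) {a | ∀ k ≤ n, m.pos r a k ∉ A} =
      ENNReal.ofReal (1 - h.pre.net.hit A n (m.org r)) := by
  induction n generalizing r with
  | zero =>
    have hprob := isProbabilityMeasure_ports (D := m.dg r) (h.pre.dg_pos hr)
    by_cases hx : m.org r ∈ A
    · have : {a : ℕ → ℕ | ∀ k ≤ 0, m.pos r a k ∉ A} = ∅ := by
        ext a
        simp [pos_zero, hx]
      rw [this, measure_empty, Net.hit_of_mem _ hx]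
      simp
    · have : {a : ℕ → ℕ | ∀ k ≤ 0, m.pos r a k ∉ A} = Set.univ := by
        ext a
        simp [pos_zero, hx]
      rw [this, measure_univ]
      simp [Net.hit, hx]
  | succ n ih =>
    by_cases hx : m.org r ∈ A
    · have : {a : ℕ → ℕ | ∀ k ≤ n + 1, m.pos r a k ∉ A} = ∅ := by
        ext a
        simp only [Set.mem_ofPred_eq, Set.mem_empty_iff_false, iff_false]
        intro h0
        exact h0 0 (Nat.zero_le _) hx
      rw [this, measure_empty, Net.hit_of_mem _ hx]
      simp
    · have h1 : {a : ℕ → ℕ | ∀ k ≤ n + 1, m.pos r a k ∉ A} =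
          {a | sh 1 a ∈ (fun s => {b : ℕ → ℕ | ∀ k ≤ n, m.pos s b k ∉ A}) (m.step r (a 0))} := by
        ext a
        simp only [Set.mem_ofPred_eq]
        constructor
        · intro h0 k hk
          have := h0 (k + 1) (by omega)
          rwa [pos_succ'] at this
        · intro h0 k hk
          rcases k with _ | k
          · exact hx
          · rw [pos_succ']
            exact h0 k (by omega)
      rw [h1, ports_first h hr (fun s => {b : ℕ → ℕ | ∀ k ≤ n, m.pos s b k ∉ A})
        (fun s => measurableSet_avoid s n A)]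
      have h2 : ∀ d ∈ h.pre.net.out (m.org r),
          ports (m.dg (m.rev d)) {b : ℕ → ℕ | ∀ k ≤ n, m.pos (m.rev d) b k ∉ A} =
            ENNReal.ofReal (1 - h.pre.net.hit A n (m.org (m.rev d))) := by
        intro d hd
        exact ih (h.pre.rev_mem_E ((h.pre.net.mem_out).1 hd).1)
      rw [Finset.sum_congr rfl h2, avg_ofReal h hr _ (hit_le_one h A n), Net.hit_succ _ hx, card_out]
      rfl

/-! ### escape probabilities -/

/-- the walk does not return to its starting point -/
def esc (m : PMap) (r : ℕ) : Set (ℕ → ℕ) := {a | ∀ k, 1 ≤ k → m.pos r a k ≠ m.org r}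

lemma measurableSet_esc (r : ℕ) : MeasurableSet (m.esc r) := by
  have : m.esc r = ⋂ k ∈ Set.Ici 1, {a : ℕ → ℕ | m.pos r a k ≠ m.org r} := by
    ext a; simp [esc]
  rw [this]
  refine MeasurableSet.biInter (Set.to_countable _) fun k _ => ?_
  exact (measurable_pos r k) (MeasurableSet.of_discrete (s := {x | x ≠ m.org r}))

lemma cap_le_esc (h : m.IsHalfPlane) {r : ℕ} (hr : r ∈ m.E) :
    h.pre.net.cap {m.org r} ≤ 2 * m.deg (m.org r) * ports (m.dg r) (m.esc r) := by
  have hprob := isProbabilityMeasure_ports (D := m.dg r) (h.pre.dg_pos hr)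
  -- finite horizon
  have key : ∀ n, h.pre.net.cap {m.org r} ≤ 2 * m.deg (m.org r) *
      ports (m.dg r) {a | ∀ k ≤ n, m.pos r a (k + 1) ≠ m.org r} := by
    intro n
    refine (h.pre.net.cap_le_escape {m.org r} n).trans ?_
    have h1 : {a : ℕ → ℕ | ∀ k ≤ n, m.pos r a (k + 1) ≠ m.org r} =
          {a | sh 1 a ∈ (fun s => {b : ℕ → ℕ | ∀ k ≤ n, m.pos s b k ∉ ({m.org r} : Finset ℕ)})
            (m.step r (a 0))} := by
      ext a
      simp only [Set.mem_ofPred_eq, Finset.mem_singleton, pos_succ', ne_eq]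
    rw [h1, ports_first h hr (fun s => {b : ℕ → ℕ | ∀ k ≤ n, m.pos s b k ∉ ({m.org r} : Finset ℕ)})
        (fun s => measurableSet_avoid s n _)]
    have h2 : ∀ d ∈ h.pre.net.out (m.org r),
          ports (m.dg (m.rev d)) {b : ℕ → ℕ | ∀ k ≤ n, m.pos (m.rev d) b k ∉
            ({m.org r} : Finset ℕ)} =
            ENNReal.ofReal (1 - h.pre.net.hit {m.org r} n (m.org (m.rev d))) := by
      intro d hd
      exact hit_eq h _ (h.pre.rev_mem_E ((h.pre.net.mem_out).1 hd).1) n
    have h3 : ∀ d ∈ h.pre.net.out (m.org r),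
        0 ≤ 1 - h.pre.net.hit {m.org r} n (m.org (m.rev d)) := fun d _ => by
      have := hit_le_one h {m.org r} n (m.org (m.rev d))
      linarith
    rw [Finset.sum_congr rfl h2, Finset.sum_singleton, mul_assoc, ← mul_assoc (m.deg _ : ℝ≥0∞),
      ENNReal.mul_inv_cancel (by exact_mod_cast (h.pre.deg_pos hr).ne') (by simp), one_mul,
      ← ENNReal.ofReal_sum_of_nonneg h3, ENNReal.ofReal_mul (by norm_num)]
    simp only [ENNReal.ofReal_ofNat]
    exact le_rfl
  have hanti : Antitone (fun n : ℕ => {a : ℕ → ℕ | ∀ k ≤ n, m.pos r a (k + 1) ≠ m.org r}) := by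
    intro n n' hn a ha k hk
    exact ha k (hk.trans hn)
  have hlim := tendsto_measure_iInter_atTop (μ := ports (m.dg r))
    (s := fun n : ℕ => {a : ℕ → ℕ | ∀ k ≤ n, m.pos r a (k + 1) ≠ m.org r})
    (fun n => ?_) hanti ⟨0, measure_ne_top _ _⟩
  · have hI : ⋂ n : ℕ, {a : ℕ → ℕ | ∀ k ≤ n, m.pos r a (k + 1) ≠ m.org r} = m.esc r := by
      ext a
      simp only [Set.mem_iInter, Set.mem_ofPred_eq, esc]
      constructor
      · intro h0 k hk
        have := h0 (k - 1) (k - 1) le_rfl
        rwa [Nat.sub_add_cancel hk] at this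
      · intro h0 n k _
        exact h0 (k + 1) (by omega)
    rw [hI] at hlim
    have hlim2 := ENNReal.Tendsto.const_mul (a := 2 * (m.deg (m.org r) : ℝ≥0∞)) hlim
      (Or.inr (by simp [ENNReal.mul_eq_top]))
    exact ge_of_tendsto' hlim2 key
  · refine MeasurableSet.nullMeasurableSet ?_
    have : {a : ℕ → ℕ | ∀ k ≤ n, m.pos r a (k + 1) ≠ m.org r} =
        ⋂ k ∈ Set.Iic n, {a : ℕ → ℕ | m.pos r a (k + 1) ≠ m.org r} := by
      ext a; simp
    rw [this]
    refine MeasurableSet.biInter (Set.to_countable _) fun k _ => ?_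
    exact (measurable_pos r (k + 1)) (MeasurableSet.of_discrete (s := {x | x ≠ m.org r}))

/-! ### visits -/

/-- the walk does not return after time `i` -/
def last (m : PMap) (r i : ℕ) : Set (ℕ → ℕ) := {a | ∀ k, i < k → m.pos r a k ≠ m.pos r a i}

lemma measurableSet_last (r i : ℕ) : MeasurableSet (m.last r i) := by
  have : m.last r i = ⋂ k ∈ Set.Ioi i, {a : ℕ → ℕ | m.pos r a k ≠ m.pos r a i} := by
    ext a; simp [last]
  rw [this]
  refine MeasurableSet.biInter (Set.to_countable _) fun k _ => ?_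
  exact (measurableSet_eq_fun (measurable_pos r k) (measurable_pos r i)).compl

/-- the weight of a vertex -/
noncomputable def wt (h : m.IsHalfPlane) (x : ℕ) : ℝ≥0∞ := m.deg x * (2 / h.pre.net.cap {x})

lemma one_le_wt_mul (h : m.IsHalfPlane) {r : ℕ} (hr : r ∈ m.E)
    (hcap : h.pre.net.cap {m.org r} ≠ 0) :
    1 ≤ wt h (m.org r) * ports (m.dg r) (m.esc r) := by
  have hprob := isProbabilityMeasure_ports (D := m.dg r) (h.pre.dg_pos hr)
  have h1 := cap_le_esc h hr
  have htop : h.pre.net.cap {m.org r} ≠ ⊤ := by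
    refine ne_top_of_le_ne_top ?_ h1
    exact ENNReal.mul_ne_top (ENNReal.mul_ne_top (by simp) (by simp)) (measure_ne_top _ _)
  have h2 : wt h (m.org r) * ports (m.dg r) (m.esc r) =
      (2 * m.deg (m.org r) * ports (m.dg r) (m.esc r)) / h.pre.net.cap {m.org r} := by
    rw [wt, ENNReal.div_eq_inv_mul, ENNReal.div_eq_inv_mul]
    ring
  rw [h2, ENNReal.le_div_iff_mul_le (Or.inl hcap) (Or.inl htop), one_mul]
  exact h1

lemma run_app (r : ℕ) (v : List ℕ) (b : ℕ → ℕ) (k : ℕ) :
    m.run r (app v b) (v.length + k) = m.run (m.dart r v) b k := by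
  induction v generalizing r with
  | nil => simp [app, dart]
  | cons i v ih =>
    rw [List.length_cons, show v.length + 1 + k = 1 + (v.length + k) by ring, run_add, dart_cons,
      ← ih]
    have : sh 1 (app (i :: v) b) = app v b := by
      funext l
      show cns i (app v b) (1 + l) = _
      rw [add_comm]; rfl
    rw [this]
    rfl

lemma one_le_lintegral_last (h : m.IsHalfPlane) (hcap : ∀ d ∈ m.E, h.pre.net.cap {m.org d} ≠ 0)
    {r : ℕ} (hr : r ∈ m.E) (i : ℕ) :
    1 ≤ ∫⁻ a, (m.last r i).indicator (fun a => wt h (m.pos r a i)) a ∂ports (m.dg r) := by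
  have hD := h.pre.dg_pos hr
  have hprob := isProbabilityMeasure_ports (D := m.dg r) hD
  have hm : Measurable ((m.last r i).indicator (fun a => wt h (m.pos r a i))) :=
    ((Measurable.of_discrete (f := wt h)).comp (measurable_pos r i)).indicator
      (measurableSet_last r i)
  rw [lintegral_ports hD i hm]
  have h1 : (1 : ℝ≥0∞) = ∑' v : {v : List ℕ // v.length = i}, cylp (m.dg r) v.1 := by
    have := lintegral_ports hD i (F := fun _ => 1) measurable_const
    simp only [lintegral_const, measure_univ, mul_one] at this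
    exact this
  rw [h1]
  refine ENNReal.tsum_le_tsum fun v => ?_
  obtain ⟨v, rfl⟩ := v
  simp only
  have hs := h.pre.dart_mem hr v
  have h2 : ∀ b : ℕ → ℕ, (m.last r v.length).indicator
      (fun a => wt h (m.pos r a v.length)) (app v b) =
        (m.esc (m.dart r v)).indicator (fun _ => wt h (m.org (m.dart r v))) b := by
    intro b
    have e0 : m.pos r (app v b) v.length = m.org (m.dart r v) := by
      have := run_app (m := m) r v b 0
      unfold pos
      rw [add_zero] at this
      rw [this]; rfl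
    have e1 : ∀ k, m.pos r (app v b) (v.length + k) = m.pos (m.dart r v) b k := fun k => by
      unfold pos; rw [run_app]
    have hiff : app v b ∈ m.last r v.length ↔ b ∈ m.esc (m.dart r v) := by
      simp only [last, esc, Set.mem_ofPred_eq]
      rw [e0]
      constructor
      · intro h0 k hk
        rw [← e1]
        exact h0 _ (by omega)
      · intro h0 k hk
        have := h0 (k - v.length) (by omega)
        rw [← e1, Nat.add_sub_cancel' hk.le] at this
        exact this
    by_cases hb : b ∈ m.esc (m.dart r v)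
    · rw [Set.indicator_of_mem hb, Set.indicator_of_mem (hiff.2 hb), e0]
    · rw [Set.indicator_of_notMem hb, Set.indicator_of_notMem (fun h' => hb (hiff.1 h'))]
  simp_rw [h2]
  rw [lintegral_indicator_const (measurableSet_esc _)]
  rw [dg_app]
  calc cylp (m.dg r) v = cylp (m.dg r) v * 1 := (mul_one _).symm
    _ ≤ _ := by
      gcongr
      exact one_le_wt_mul h hs (hcap _ hs)

theorem visits (h : m.IsHalfPlane) (hcap : ∀ d ∈ m.E, h.pre.net.cap {m.org d} ≠ 0) {r : ℕ}
    (hr : r ∈ m.E) (n : ℕ) (F : (ℕ → ℕ) → Finset ℕ)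
    (hF : ∀ a, ∀ i < n, ∀ d ∈ m.E, m.org d = m.pos r a i → d ∈ F a) :
    (n : ℝ≥0∞) ≤ ∫⁻ a, ∑ d ∈ F a, 2 / h.pre.net.cap {m.org d} ∂ports (m.dg r) := by
  classical
  have hm : ∀ i, Measurable ((m.last r i).indicator (fun a => wt h (m.pos r a i))) := fun i =>
    ((Measurable.of_discrete (f := wt h)).comp (measurable_pos r i)).indicator
      (measurableSet_last r i)
  calc (n : ℝ≥0∞) = ∑ i ∈ Finset.range n, (1 : ℝ≥0∞) := by simp
    _ ≤ ∑ i ∈ Finset.range n, ∫⁻ a, (m.last r i).indicator (fun a => wt h (m.pos r a i)) a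
          ∂ports (m.dg r) := Finset.sum_le_sum fun i _ => one_le_lintegral_last h hcap hr i
    _ = ∫⁻ a, ∑ i ∈ Finset.range n, (m.last r i).indicator (fun a => wt h (m.pos r a i)) a
          ∂ports (m.dg r) := (lintegral_finsetSum _ fun i _ => hm i).symm
    _ ≤ _ := by
      refine lintegral_mono fun a => ?_
      simp only
      set S := (Finset.range n).filter (fun i => a ∈ m.last r i) with hS
      have h1 : ∑ i ∈ Finset.range n, (m.last r i).indicator (fun a => wt h (m.pos r a i)) a =
          ∑ i ∈ S, wt h (m.pos r a i) := by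
        rw [hS, Finset.sum_filter]
        refine Finset.sum_congr rfl fun i _ => ?_
        by_cases hi : a ∈ m.last r i
        · rw [Set.indicator_of_mem hi, if_pos hi]
        · rw [Set.indicator_of_notMem hi, if_neg hi]
      have hinj : ∀ i ∈ S, ∀ j ∈ S, i ≠ j → m.pos r a i ≠ m.pos r a j := by
        intro i hi j hj hij
        rw [hS, Finset.mem_filter] at hi hj
        rcases Nat.lt_or_gt_of_ne hij with h0 | h0
        · exact (hi.2 j h0).symm
        · exact hj.2 i h0
      have h2 : ∀ i ∈ S, wt h (m.pos r a i) =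
          ∑ d ∈ h.pre.net.out (m.pos r a i), 2 / h.pre.net.cap {m.org d} := by
        intro i _
        have h3 : ∀ d ∈ h.pre.net.out (m.pos r a i), 2 / h.pre.net.cap {m.org d} =
            2 / h.pre.net.cap {m.pos r a i} := fun d hd => by
          have : m.org d = m.pos r a i := ((h.pre.net.mem_out).1 hd).2
          rw [this]
        rw [wt, Finset.sum_congr rfl h3, Finset.sum_const, card_out, nsmul_eq_mul]
      rw [h1, Finset.sum_congr rfl h2, ← Finset.sum_biUnion]
      · refine Finset.sum_le_sum_of_subset ?_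
        intro d hd
        obtain ⟨i, hi, hd⟩ := Finset.mem_biUnion.1 hd
        rw [hS, Finset.mem_filter, Finset.mem_range] at hi
        have hd' := (h.pre.net.mem_out).1 hd
        exact hF a i hi.1 d hd'.1 hd'.2
      · intro i hi j hj hij
        rw [Function.onFun, Finset.disjoint_left]
        intro d hd hd'
        exact hinj i hi j hj hij
          (((h.pre.net.mem_out).1 hd).2.symm.trans ((h.pre.net.mem_out).1 hd').2)

end PMap

end Pool.Agent.Helper97.Speed
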